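import Pool.Agent.W13.LM.Scale

/-! # Dihedral relations between the digits of an expansion in a quadratic unit of norm `± 1` -/

set_option autoImplicit false

open Finset

namespace Pool.Agent.Helper553.DS

/-- standing assumptions on the unit -/
structure Unt (t N : ℤ) (ε : ℝ) : Prop where
  hN : N = 1 ∨ N = -1
  h1 : 1 < ε
  irr : Irrational ε
  hq : ε ^ 2 - t * ε + N = 0

/-- the conjugate -/
noncomputable def cj (N : ℤ) (ε : ℝ) : ℝ := N * ε⁻¹

/-- the denominators -/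
def U (t N : ℤ) : ℕ → ℤ
  | 0 => 0
  | 1 => 1
  | (n + 2) => t * U t N (n + 1) - N * U t N n

section base
variable {t N : ℤ} {ε : ℝ} (hb : Unt t N ε)
include hb

lemma Unt.pos : 0 < ε := lt_trans one_pos hb.h1
lemma Unt.ne : ε ≠ 0 := hb.pos.ne'
lemma Unt.rpos : 0 < ε⁻¹ := inv_pos.mpr hb.pos
lemma Unt.rlt : ε⁻¹ < 1 := inv_lt_one_of_one_lt₀ hb.h1
lemma Unt.rmul : ε * ε⁻¹ = 1 := mul_inv_cancel₀ hb.ne
lemma Unt.NN : (N : ℝ) * N = 1 := by rcases hb.hN with rfl | rfl <;> norm_num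
lemma Unt.absN : |(N : ℝ)| = 1 := by rcases hb.hN with rfl | rfl <;> norm_num
lemma Unt.mul : ε * cj N ε = N := by
  unfold cj
  have := hb.rmul
  linear_combination (N : ℝ) * this
lemma Unt.add : ε + cj N ε = t := by
  have h := hb.hq
  have h2 := hb.mul
  have h3 : ε * (ε + cj N ε - t) = 0 := by linear_combination h + h2
  rcases mul_eq_zero.1 h3 with h4 | h4
  · exact absurd h4 hb.ne
  · linarith
lemma Unt.abs_cj : |cj N ε| = ε⁻¹ := by
  unfold cj
  rw [abs_mul, hb.absN, one_mul, abs_of_pos hb.rpos]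
lemma Unt.dpos : 0 < ε - cj N ε := by
  have h1 := hb.abs_cj
  have h2 := le_abs_self (cj N ε)
  have h3 := hb.rlt
  have h4 := hb.h1
  linarith
lemma Unt.abs_cj_pow (n : ℕ) : |cj N ε ^ n| = ε⁻¹ ^ n := by rw [abs_pow, hb.abs_cj]

lemma Unt.U_diff (n : ℕ) : (U t N (n + 1) : ℝ) - ε * (U t N n : ℝ) = cj N ε ^ n := by
  induction n with
  | zero => simp [U]
  | succ n ih =>
    have ha := hb.add
    have hm := hb.mul
    rw [U, pow_succ, ← ih]
    push_cast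
    rw [← ha, ← hm]
    ring

lemma Unt.U_diff' (n : ℕ) : (U t N (n + 1) : ℝ) - cj N ε * (U t N n : ℝ) = ε ^ n := by
  induction n with
  | zero => simp [U]
  | succ n ih =>
    have ha := hb.add
    have hm := hb.mul
    rw [U, pow_succ, ← ih]
    push_cast
    rw [← ha, ← hm]
    ring

lemma Unt.U_bound (n : ℕ) : |(U t N n : ℝ)| ≤ 2 / (ε - cj N ε) * ε ^ n := by
  have h1 := hb.U_diff n
  have h2 := hb.U_diff' n
  have hd := hb.dpos
  have e : (ε - cj N ε) * (U t N n : ℝ) = ε ^ n - cj N ε ^ n := by linear_combination h2 - h1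
  have h3 := abs_sub (ε ^ n) (cj N ε ^ n)
  rw [← e, abs_mul, abs_of_pos hd, abs_of_pos (pow_pos hb.pos n), hb.abs_cj_pow] at h3
  have h4 : ε⁻¹ ^ n ≤ 1 := pow_le_one₀ hb.rpos.le hb.rlt.le
  have h5 : 1 ≤ ε ^ n := one_le_pow₀ hb.h1.le
  rw [div_mul_eq_mul_div, le_div_iff₀ hd]
  linarith

end base

section tails
variable {t N : ℤ} {ε : ℝ}

/-- tails of the expansion -/
noncomputable def tl (ε : ℝ) (d : ℕ → ℤ) (j : ℕ) : ℝ := ∑' i : ℕ, (d (i + j) : ℝ) * ε⁻¹ ^ i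

lemma summ (hb : Unt t N ε) (d : ℕ → ℤ) (B : ℝ) (hB : ∀ k, |(d k : ℝ)| ≤ B) (j : ℕ) :
    Summable fun i : ℕ => (d (i + j) : ℝ) * ε⁻¹ ^ i := by
  refine Summable.of_norm_bounded (g := fun i => B * ε⁻¹ ^ i)
    ((summable_geometric_of_lt_one hb.rpos.le hb.rlt).mul_left B) ?_
  intro i
  rw [Real.norm_eq_abs, abs_mul, abs_of_pos (pow_pos hb.rpos i)]
  exact mul_le_mul_of_nonneg_right (hB _) (pow_pos hb.rpos i).le

lemma tl_rec (hb : Unt t N ε) (d : ℕ → ℤ) (B : ℝ) (hB : ∀ k, |(d k : ℝ)| ≤ B) (j : ℕ) :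
    tl ε d j = d j + ε⁻¹ * tl ε d (j + 1) := by
  unfold tl
  rw [(summ hb d B hB j).tsum_eq_zero_add, ← tsum_mul_left]
  congr 1
  · simp
  · apply tsum_congr
    intro i
    rw [show i + 1 + j = i + (j + 1) by ring, pow_succ]
    ring

lemma tl_bound (hb : Unt t N ε) (d : ℕ → ℤ) (B : ℝ) (hB : ∀ k, |(d k : ℝ)| ≤ B) (j : ℕ) :
    |tl ε d j| ≤ B * (1 - ε⁻¹)⁻¹ := by
  rw [← Real.norm_eq_abs]
  refine tsum_of_norm_bounded ((hasSum_geometric_of_lt_one hb.rpos.le hb.rlt).mul_left B) ?_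
  intro i
  rw [Real.norm_eq_abs, abs_mul, abs_of_pos (pow_pos hb.rpos i)]
  exact mul_le_mul_of_nonneg_right (hB _) (pow_pos hb.rpos i).le

/-- the integer parts -/
def nn (t N : ℤ) (d : ℕ → ℤ) : ℕ → ℤ
  | 0 => 0
  | 1 => d 0
  | (k + 2) => t * nn t N d (k + 1) - N * nn t N d k + d (k + 1)

/-- the remainders -/
noncomputable def vv (t N : ℤ) (ε : ℝ) (d : ℕ → ℤ) (k : ℕ) : ℝ :=
  (U t N k : ℝ) * tl ε d 0 - nn t N d k

lemma vv_rec (d : ℕ → ℤ) (k : ℕ) :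
    vv t N ε d (k + 2) = t * vv t N ε d (k + 1) - N * vv t N ε d k - d (k + 1) := by
  unfold vv
  rw [U, nn]
  push_cast
  ring

lemma vv_P (hb : Unt t N ε) (d : ℕ → ℤ) (B : ℝ) (hB : ∀ k, |(d k : ℝ)| ≤ B) (k : ℕ) :
    vv t N ε d (k + 1) - cj N ε * vv t N ε d k = ε⁻¹ * tl ε d (k + 1) := by
  induction k with
  | zero =>
    have h := tl_rec hb d B hB 0
    unfold vv
    rw [zero_add, U, U, nn, nn]
    rw [zero_add] at h
    push_cast
    linarith
  | succ k ih =>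
    have h := tl_rec hb d B hB (k + 1)
    have ha := hb.add
    have hm := hb.mul
    rw [vv_rec, ← ha, ← hm]
    have e1 : ε * (vv t N ε d (k + 1) - cj N ε * vv t N ε d k) = tl ε d (k + 1) := by
      rw [ih, ← mul_assoc, hb.rmul, one_mul]
    linear_combination e1 + h

lemma vv_R (hb : Unt t N ε) (d : ℕ → ℤ) (B : ℝ) (hB : ∀ k, |(d k : ℝ)| ≤ B) (k : ℕ) :
    |vv t N ε d (k + 1) - ε * vv t N ε d k| ≤ B * (1 - ε⁻¹)⁻¹ := by
  have hB0 : 0 ≤ B := (abs_nonneg _).trans (hB 0)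
  have hr := hb.rlt
  have hr0 := hb.rpos
  set τ : ℝ := (1 - ε⁻¹)⁻¹ with hτ
  have hτ1 : τ * (1 - ε⁻¹) = 1 := inv_mul_cancel₀ (by linarith)
  have hτ0 : 0 < τ := inv_pos.2 (by linarith)
  induction k with
  | zero =>
    have h := tl_rec hb d B hB 0
    rw [zero_add] at h
    unfold vv
    rw [zero_add, U, U, nn, nn]
    have h1 := tl_bound hb d B hB 1
    have : ((1 : ℤ) : ℝ) * tl ε d 0 - ((d 0 : ℤ) : ℝ) - ε * (((0 : ℤ) : ℝ) * tl ε d 0 - ((0 : ℤ) : ℝ))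
        = ε⁻¹ * tl ε d 1 := by push_cast; linarith
    rw [this, abs_mul, abs_of_pos hr0]
    have h2 := abs_nonneg (tl ε d 1)
    nlinarith
  | succ k ih =>
    have ha := hb.add
    have hm := hb.mul
    rw [vv_rec]
    have e1 : t * vv t N ε d (k + 1) - N * vv t N ε d k - d (k + 1) - ε * vv t N ε d (k + 1)
        = cj N ε * (vv t N ε d (k + 1) - ε * vv t N ε d k) - d (k + 1) := by
      rw [← ha, ← hm]
      ring
    rw [e1]
    have h2 := abs_sub (cj N ε * (vv t N ε d (k + 1) - ε * vv t N ε d k)) (d (k + 1) : ℝ)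
    rw [abs_mul, hb.abs_cj] at h2
    have h3 := hB (k + 1)
    have h4 := mul_le_mul_of_nonneg_left ih hr0.le
    have h5 : ε⁻¹ * (B * τ) + B = B * τ := by linear_combination (-B) * hτ1
    linarith

lemma vv_bound (hb : Unt t N ε) (d : ℕ → ℤ) (B : ℝ) (hB : ∀ k, |(d k : ℝ)| ≤ B) (k : ℕ) :
    |vv t N ε d k| ≤ 2 * (B * (1 - ε⁻¹)⁻¹) / (ε - cj N ε) := by
  have hB0 : 0 ≤ B := (abs_nonneg _).trans (hB 0)
  have h1 := vv_P hb d B hB k
  have h2 := vv_R hb d B hB k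
  have h3 := tl_bound hb d B hB (k + 1)
  have hr0 := hb.rpos
  have hr := hb.rlt
  have hd := hb.dpos
  have e : (ε - cj N ε) * vv t N ε d k
      = ε⁻¹ * tl ε d (k + 1) - (vv t N ε d (k + 1) - ε * vv t N ε d k) := by
    linear_combination (1 : ℝ) * h1
  have h4 := abs_sub (ε⁻¹ * tl ε d (k + 1)) (vv t N ε d (k + 1) - ε * vv t N ε d k)
  rw [← e, abs_mul, abs_mul, abs_of_pos hb.rpos, abs_of_pos hd] at h4
  have h5 := abs_nonneg (tl ε d (k + 1))
  rw [le_div_iff₀ hd]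
  nlinarith

/-- a bounded solution of the homogeneous recurrence is small in the middle of the window -/
lemma window (hb : Unt t N ε) (x : ℕ → ℝ) (V : ℝ) (hV : ∀ k, |x k| ≤ V) (l m r : ℕ)
    (hlm : l ≤ m) (hmr : m ≤ r)
    (hx : ∀ k, l ≤ k → k < r → x (k + 2) = t * x (k + 1) - N * x k) :
    |x m| ≤ (1 + ε) * V / (ε - cj N ε) * (ε⁻¹ ^ (r - m) + ε⁻¹ ^ (m - l)) := by
  have hV0 : 0 ≤ V := (abs_nonneg _).trans (hV 0)
  have ha := hb.add
  have hm := hb.mul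
  have hP : ∀ i, m + i ≤ r →
      x (m + i + 1) - cj N ε * x (m + i) = ε ^ i * (x (m + 1) - cj N ε * x m) := by
    intro i
    induction i with
    | zero => intro _; simp
    | succ i ih =>
      intro hi
      have h1 := ih (by omega)
      have h2 := hx (m + i) (by omega) (by omega)
      rw [← add_assoc, h2, pow_succ, ← ha, ← hm]
      linear_combination ε * h1
  have hR : ∀ i, l + i ≤ r →
      x (l + i + 1) - ε * x (l + i) = cj N ε ^ i * (x (l + 1) - ε * x l) := by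
    intro i
    induction i with
    | zero => intro _; simp
    | succ i ih =>
      intro hi
      have h1 := ih (by omega)
      have h2 := hx (l + i) (by omega) (by omega)
      rw [← add_assoc, h2, pow_succ, ← ha, ← hm]
      linear_combination cj N ε * h1
  have h1 := hP (r - m) (by omega)
  have h2 := hR (m - l) (by omega)
  rw [show m + (r - m) = r by omega] at h1
  rw [show l + (m - l) = m by omega] at h2
  have hrp := hb.rpos
  have hrl := hb.rlt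
  have hp := hb.pos
  have b1 : |x (m + 1) - cj N ε * x m| ≤ ε⁻¹ ^ (r - m) * ((1 + ε) * V) := by
    have e : x (m + 1) - cj N ε * x m = ε⁻¹ ^ (r - m) * (x (r + 1) - cj N ε * x r) := by
      rw [h1, ← mul_assoc, ← mul_pow, inv_mul_cancel₀ hb.ne, one_pow, one_mul]
    rw [e, abs_mul, abs_of_pos (pow_pos hrp _)]
    refine mul_le_mul_of_nonneg_left ?_ (pow_pos hrp _).le
    have h3 := abs_sub (x (r + 1)) (cj N ε * x r)
    rw [abs_mul, hb.abs_cj] at h3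
    have h4 := hV (r + 1)
    have h5 := hV r
    have h6 := abs_nonneg (x r)
    nlinarith [hb.h1]
  have b2 : |x (m + 1) - ε * x m| ≤ ε⁻¹ ^ (m - l) * ((1 + ε) * V) := by
    rw [h2, abs_mul, hb.abs_cj_pow]
    refine mul_le_mul_of_nonneg_left ?_ (pow_pos hrp _).le
    have h3 := abs_sub (x (l + 1)) (ε * x l)
    rw [abs_mul, abs_of_pos hp] at h3
    have h4 := hV (l + 1)
    have h5 := hV l
    nlinarith
  have e : (ε - cj N ε) * x m = (x (m + 1) - cj N ε * x m) - (x (m + 1) - ε * x m) := by ring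
  have h4 := abs_sub (x (m + 1) - cj N ε * x m) (x (m + 1) - ε * x m)
  have hd := hb.dpos
  rw [← e, abs_mul, abs_of_pos hd] at h4
  rw [div_mul_eq_mul_div, le_div_iff₀ hd]
  linarith

end tails

section norm
variable {t N : ℤ} {ε : ℝ}

lemma conj (hb : Unt t N ε) {ι : Type} [Fintype ι] (c : ι → ℤ) (p : ι → ℕ) :
    ∃ P Q : ℤ, ∑ i, (c i : ℝ) * ε ^ p i = P + Q * ε ∧
      ∑ i, (c i : ℝ) * cj N ε ^ p i = P + Q * cj N ε := by
  have ha := hb.add
  refine ⟨∑ i, c i * (U t N (p i + 1) - t * U t N (p i)), ∑ i, c i * U t N (p i), ?_, ?_⟩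
  · push_cast
    rw [sum_mul, ← sum_add_distrib]
    refine sum_congr rfl fun i _ => ?_
    have h := hb.U_diff' (p i)
    rw [← h, ← ha]
    ring
  · push_cast
    rw [sum_mul, ← sum_add_distrib]
    refine sum_congr rfl fun i _ => ?_
    have h := hb.U_diff (p i)
    rw [← h, ← ha]
    ring

lemma lin_ne (hb : Unt t N ε) (X Y : ℤ) (h : X ≠ 0 ∨ Y ≠ 0) : (X : ℝ) + Y * ε ≠ 0 := by
  intro h0
  have hY : Y = 0 := by
    by_contra hY
    apply hb.irr
    have hY' : (Y : ℝ) ≠ 0 := by exact_mod_cast hY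
    refine ⟨-X / Y, ?_⟩
    push_cast
    field_simp
    linarith
  rw [hY] at h0
  push_cast at h0
  have hX : X = 0 := by
    have : (X : ℝ) = 0 := by linarith
    exact_mod_cast this
  rcases h with h | h
  · exact h hX
  · exact h hY

lemma norm_ge (hb : Unt t N ε) {ι : Type} [Fintype ι] (c : ι → ℤ) (p : ι → ℕ)
    (hne : ∑ i, (c i : ℝ) * ε ^ p i ≠ 0) :
    1 ≤ |∑ i, (c i : ℝ) * ε ^ p i| * |∑ i, (c i : ℝ) * cj N ε ^ p i| := by
  obtain ⟨P, Q, h1, h2⟩ := conj hb c p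
  have hne2 : ∑ i, (c i : ℝ) * cj N ε ^ p i ≠ 0 := by
    intro h0
    rw [h2] at h0
    have h3 : ((Q * N : ℤ) : ℝ) + P * ε = 0 := by
      push_cast
      linear_combination ε * h0 - (Q : ℝ) * hb.mul
    have h4 : ¬ (Q * N ≠ 0 ∨ P ≠ 0) := fun h => lin_ne hb _ _ h h3
    push Not at h4
    obtain ⟨h5, h6⟩ := h4
    have h7 : Q = 0 := by
      rcases hb.hN with h | h <;> rw [h] at h5 <;> omega
    apply hne
    rw [h1, h6, h7]
    push_cast
    ring
  rw [← abs_mul]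
  have hprod : (∑ i, (c i : ℝ) * ε ^ p i) * (∑ i, (c i : ℝ) * cj N ε ^ p i)
      = ((P ^ 2 + t * P * Q + N * Q ^ 2 : ℤ) : ℝ) := by
    rw [h1, h2]
    push_cast
    rw [← hb.add, ← hb.mul]
    ring
  have hne3 := mul_ne_zero hne hne2
  rw [hprod] at hne3 ⊢
  have h4 : (P ^ 2 + t * P * Q + N * Q ^ 2 : ℤ) ≠ 0 := by exact_mod_cast hne3
  have h5 := Int.one_le_abs h4
  exact_mod_cast h5

lemma comb_bound {ι : Type} [Fintype ι] (c e : ι → ℤ) (a b : ι → ℝ) (X : ℝ)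
    (ha : ∀ i, |a i| ≤ X) (hb : ∀ i, |b i| ≤ X) :
    |∑ i, (c i : ℝ) * a i - ∑ i, (e i : ℝ) * b i|
      ≤ ((∑ i, ((c i).natAbs + (e i).natAbs) : ℕ) : ℝ) * X := by
  have h1 : |∑ i, (c i : ℝ) * a i| ≤ ∑ i, ((c i).natAbs : ℝ) * X := by
    refine (abs_sum_le_sum_abs _ _).trans (sum_le_sum fun i _ => ?_)
    rw [abs_mul, Nat.cast_natAbs, Int.cast_abs]
    exact mul_le_mul_of_nonneg_left (ha i) (abs_nonneg _)
  have h2 : |∑ i, (e i : ℝ) * b i| ≤ ∑ i, ((e i).natAbs : ℝ) * X := by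
    refine (abs_sum_le_sum_abs _ _).trans (sum_le_sum fun i _ => ?_)
    rw [abs_mul, Nat.cast_natAbs, Int.cast_abs]
    exact mul_le_mul_of_nonneg_left (hb i) (abs_nonneg _)
  refine (abs_sub _ _).trans ((add_le_add h1 h2).trans (le_of_eq ?_))
  push_cast
  rw [sum_mul, ← sum_add_distrib]
  exact sum_congr rfl fun i _ => by ring

/-- the denominators -/
def qq {ι : Type} [Fintype ι] (t N : ℤ) (c e : ι → ℤ) (p : ι → ℕ) (s m : ℕ) : ℤ :=
  ∑ i, c i * U t N (m + p i) - ∑ i, e i * (N ^ m * U t N (s - m - p i))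

lemma nonvanish (hb : Unt t N ε) {ι : Type} [Fintype ι] (c e : ι → ℤ) (p : ι → ℕ) (s g h : ℕ)
    (hp : ∀ i, p i ≤ g) (hs : h + 1 + g ≤ s)
    (hbig : ((∑ i, ((c i).natAbs + (e i).natAbs) : ℕ) : ℝ) ^ 2 * ε ^ g < ε ^ s)
    (hne : ∑ i, (c i : ℝ) * ε ^ p i ≠ 0 ∨ ∑ i, (e i : ℝ) * ((N : ℝ) * ε) ^ p i ≠ 0) :
    ∃ m, (m = h ∨ m = h + 1) ∧ qq t N c e p s m ≠ 0 := by
  by_contra hcon
  push Not at hcon
  have q0 := hcon h (Or.inl rfl)
  have q1 := hcon (h + 1) (Or.inr rfl)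
  have hε := hb.pos
  have hρ := hb.rpos
  have hm := hb.mul
  have hNN := hb.NN
  have r0 : ∑ i, (c i : ℝ) * U t N (h + p i)
      - ∑ i, (e i : ℝ) * ((N : ℝ) ^ h * U t N (s - h - p i)) = 0 := by
    have : ((qq t N c e p s h : ℤ) : ℝ) = 0 := by rw [q0]; norm_num
    unfold qq at this
    push_cast at this
    exact this
  have r1 : ∑ i, (c i : ℝ) * U t N (h + 1 + p i)
      - ∑ i, (e i : ℝ) * ((N : ℝ) ^ (h + 1) * U t N (s - (h + 1) - p i)) = 0 := by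
    have : ((qq t N c e p s (h + 1) : ℤ) : ℝ) = 0 := by rw [q1]; norm_num
    unfold qq at this
    push_cast at this
    exact this
  have hNinv : (N : ℝ) * cj N ε = ε⁻¹ := by
    unfold cj
    linear_combination ε⁻¹ * hNN
  -- the relation
  have A : ε ^ h * (∑ i, (c i : ℝ) * ε ^ p i)
      + (N : ℝ) ^ s * ε⁻¹ ^ (s - h) * (∑ i, (e i : ℝ) * ((N : ℝ) * ε) ^ p i) = 0 := by
    have e1 : ∑ i, (c i : ℝ) * U t N (h + 1 + p i) - cj N ε * ∑ i, (c i : ℝ) * U t N (h + p i)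
        = ε ^ h * (∑ i, (c i : ℝ) * ε ^ p i) := by
      rw [mul_sum, mul_sum, ← sum_sub_distrib]
      refine sum_congr rfl fun i _ => ?_
      have := hb.U_diff' (h + p i)
      rw [show h + 1 + p i = h + p i + 1 by ring]
      rw [pow_add] at this
      linear_combination (c i : ℝ) * this
    have e2 : ∑ i, (e i : ℝ) * ((N : ℝ) ^ (h + 1) * U t N (s - (h + 1) - p i))
        - cj N ε * ∑ i, (e i : ℝ) * ((N : ℝ) ^ h * U t N (s - h - p i))
        = - ((N : ℝ) ^ s * ε⁻¹ ^ (s - h) * (∑ i, (e i : ℝ) * ((N : ℝ) * ε) ^ p i)) := by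
      rw [mul_sum, mul_sum, ← sum_sub_distrib, ← sum_neg_distrib]
      refine sum_congr rfl fun i _ => ?_
      have hpi := hp i
      obtain ⟨P, hP⟩ : ∃ P, P = s - (h + 1) - p i := ⟨_, rfl⟩
      have h1 := hb.U_diff P
      rw [show s - h - p i = P + 1 by omega, show s - (h + 1) - p i = P by omega]
      have h2 : (N : ℝ) ^ s * ε⁻¹ ^ (s - h) * ((N : ℝ) * ε) ^ p i
          = (N : ℝ) ^ (h + 1) * ((N : ℝ) * ε⁻¹) ^ P * ε⁻¹ := by
        rw [show s = (h + 1) + P + p i by omega, show (h + 1) + P + p i - h = P + 1 + p i by omega,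
          pow_add (N : ℝ) _ (p i), pow_add (N : ℝ) _ P, pow_add ε⁻¹ _ (p i), pow_succ ε⁻¹ P, mul_pow,
          mul_pow]
        have h3 : (N : ℝ) ^ p i * (N : ℝ) ^ p i = 1 := by rw [← mul_pow, hNN, one_pow]
        have h4 : ε⁻¹ ^ p i * ε ^ p i = 1 := by rw [← mul_pow, inv_mul_cancel₀ hb.ne, one_pow]
        calc (N : ℝ) ^ (h + 1) * (N : ℝ) ^ P * (N : ℝ) ^ p i * (ε⁻¹ ^ P * ε⁻¹ * ε⁻¹ ^ p i)
              * ((N : ℝ) ^ p i * ε ^ p i)
            = (N : ℝ) ^ (h + 1) * (N : ℝ) ^ P * (ε⁻¹ ^ P * ε⁻¹)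
              * ((N : ℝ) ^ p i * (N : ℝ) ^ p i) * (ε⁻¹ ^ p i * ε ^ p i) := by ring
          _ = _ := by rw [h3, h4]; ring
      have h5 : cj N ε ^ P = ((N : ℝ) * ε⁻¹) ^ P := rfl
      have h6 : (e i : ℝ) * ((N : ℝ) ^ (h + 1) * U t N P)
          - cj N ε * ((e i : ℝ) * ((N : ℝ) ^ h * U t N (P + 1)))
          = - (e i : ℝ) * (N : ℝ) ^ (h + 1) * ε⁻¹ * (U t N (P + 1) - ε * U t N P) := by
        rw [← hNinv, pow_succ]
        have h7 : (N : ℝ) * cj N ε * ε = 1 := by rw [hNinv, inv_mul_cancel₀ hb.ne]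
        linear_combination (-(e i : ℝ) * (N : ℝ) ^ h * N * U t N P) * h7
          + ((e i : ℝ) * (N : ℝ) ^ h * cj N ε * U t N (P + 1)) * hNN
      rw [h6, h1, h5]
      linear_combination (e i : ℝ) * h2
    linear_combination r1 - cj N ε * r0 - e1 + e2
  have hNs : ∀ k : ℕ, |(N : ℝ) ^ k| = 1 := fun k => by rw [abs_pow, hb.absN, one_pow]
  have hNs0 : ∀ k : ℕ, (N : ℝ) ^ k ≠ 0 := fun k h0 => by
    have := hNs k
    rw [h0, abs_zero] at this
    norm_num at this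
  have hC : ∑ i, (c i : ℝ) * ε ^ p i ≠ 0 := by
    intro h0
    rw [h0, mul_zero, zero_add] at A
    rcases mul_eq_zero.1 A with h1 | h1
    · exact mul_ne_zero (hNs0 _) (pow_pos hρ _).ne' h1
    · rcases hne with h2 | h2
      · exact h2 h0
      · exact h2 h1
  have hN' := norm_ge hb c p hC
  set M : ℝ := ((∑ i, ((c i).natAbs + (e i).natAbs) : ℕ) : ℝ) with hM
  have hM0 : 0 ≤ M := Nat.cast_nonneg _
  have bE : |∑ i, (e i : ℝ) * ((N : ℝ) * ε) ^ p i| ≤ M * ε ^ g := by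
    have h1 := comb_bound c e (fun _ => 0) (fun i => ((N : ℝ) * ε) ^ p i) (ε ^ g)
      (fun i => by rw [abs_zero]; positivity)
      (fun i => by
        rw [mul_pow, abs_mul, hNs, one_mul, abs_of_pos (pow_pos hε _)]
        exact pow_le_pow_right₀ hb.h1.le (hp i))
    rw [← hM] at h1
    simpa only [mul_zero, sum_const_zero, zero_sub, abs_neg] using h1
  have bC : |∑ i, (c i : ℝ) * cj N ε ^ p i| ≤ M := by
    have h1 := comb_bound c e (fun i => cj N ε ^ p i) (fun _ => 0) 1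
      (fun i => by rw [hb.abs_cj_pow]; exact pow_le_one₀ hρ.le hb.rlt.le)
      (fun i => by rw [abs_zero]; positivity)
    rw [← hM] at h1
    simpa only [mul_zero, sum_const_zero, sub_zero, mul_one] using h1
  have A3 : ε ^ s * |∑ i, (c i : ℝ) * ε ^ p i| = |∑ i, (e i : ℝ) * ((N : ℝ) * ε) ^ p i| := by
    have h1 : ε ^ s * (∑ i, (c i : ℝ) * ε ^ p i)
        = - ((N : ℝ) ^ s * ∑ i, (e i : ℝ) * ((N : ℝ) * ε) ^ p i) := by
      have h2 : ε ^ (s - h) * ε⁻¹ ^ (s - h) = 1 := by rw [← mul_pow, hb.rmul, one_pow]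
      have h3 : ε ^ s = ε ^ (s - h) * ε ^ h := by rw [← pow_add]; congr 1; omega
      rw [h3]
      linear_combination ε ^ (s - h) * A
        - ((N : ℝ) ^ s * ∑ i, (e i : ℝ) * ((N : ℝ) * ε) ^ p i) * h2
    have h2 := congrArg abs h1
    rw [abs_mul, abs_neg, abs_mul, hNs, one_mul, abs_of_pos (pow_pos hε _)] at h2
    exact h2
  have hfin : ε ^ s ≤ M ^ 2 * ε ^ g := by
    calc ε ^ s = ε ^ s * 1 := (mul_one _).symm
      _ ≤ ε ^ s * (|∑ i, (c i : ℝ) * ε ^ p i| * |∑ i, (c i : ℝ) * cj N ε ^ p i|) :=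
          mul_le_mul_of_nonneg_left hN' (pow_pos hε _).le
      _ = |∑ i, (e i : ℝ) * ((N : ℝ) * ε) ^ p i| * |∑ i, (c i : ℝ) * cj N ε ^ p i| := by
          rw [← mul_assoc, A3]
      _ ≤ (M * ε ^ g) * M := by gcongr
      _ = _ := by ring
  linarith

end norm

end Pool.Agent.Helper553.DS
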