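import Pool.Agent.Helper553_DS.A

/-! # Approximations from one relation -/

set_option autoImplicit false

open Finset

namespace Pool.Agent.Helper553.DS

variable {t N : ℤ} {ε : ℝ}

/-- the relations, with a general finite index set -/
def Rel (t N : ℤ) (ε κ A : ℝ) (d : ℕ → ℤ) (K : ℕ) : Prop :=
  ∃ (ι : Type) (_ : Fintype ι) (c e : ι → ℤ) (p : ι → ℕ) (w : ℕ → ℤ) (s g L : ℕ),
    (∀ i, p i ≤ g) ∧ 2 * (L + g) ≤ s ∧
    2 * g + κ * s + K * (1 + Nat.log 2 (∑ i, ((c i).natAbs + (e i).natAbs))) ≤ (L : ℝ) ∧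
    (∑ i, (c i : ℝ) * ε ^ p i ≠ 0 ∨ ∑ i, (e i : ℝ) * ((N : ℝ) * ε) ^ p i ≠ 0) ∧
    (∀ k, |(w k : ℝ)| ≤ A * ((∑ i, ((c i).natAbs + (e i).natAbs) : ℕ) : ℝ)) ∧
    ∀ k, s ≤ 2 * (k + 1) + 2 * L → 2 * (k + 1) ≤ s + 2 * L →
      ∑ i, c i * d (k + 1 + p i) - N ^ (k + 1) * ∑ i, e i * d (s - (k + 1) - p i)
        = w (k + 2) - t * w (k + 1) + N * w k

/-- the combination of the remainders -/
noncomputable def uu {ι : Type} [Fintype ι] (t N : ℤ) (ε : ℝ) (d : ℕ → ℤ) (c e : ι → ℤ)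
    (p : ι → ℕ) (s m : ℕ) : ℝ :=
  ∑ i, (c i : ℝ) * vv t N ε d (m + p i) - ∑ i, (e i : ℝ) * ((N : ℝ) ^ m * vv t N ε d (s - m - p i))

lemma uu_rec (hb : Unt t N ε) {ι : Type} [Fintype ι] (d : ℕ → ℤ) (c e : ι → ℤ) (p : ι → ℕ)
    (w : ℕ → ℤ) (s g k : ℕ) (hp : ∀ i, p i ≤ g) (hk : k + 2 + g ≤ s)
    (h : ∑ i, c i * d (k + 1 + p i) - N ^ (k + 1) * ∑ i, e i * d (s - (k + 1) - p i)
        = w (k + 2) - t * w (k + 1) + N * w k) :
    uu t N ε d c e p s (k + 2) + w (k + 2) = t * (uu t N ε d c e p s (k + 1) + w (k + 1))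
      - N * (uu t N ε d c e p s k + w k) := by
  have hNN := hb.NN
  have h' : ∑ i, (c i : ℝ) * (d (k + 1 + p i) : ℝ)
      - (N : ℝ) ^ (k + 1) * ∑ i, (e i : ℝ) * (d (s - (k + 1) - p i) : ℝ)
      = w (k + 2) - t * w (k + 1) + N * w k := by
    exact_mod_cast h
  have e1 : ∑ i, (c i : ℝ) * vv t N ε d (k + 2 + p i)
      = t * ∑ i, (c i : ℝ) * vv t N ε d (k + 1 + p i) - N * ∑ i, (c i : ℝ) * vv t N ε d (k + p i)
        - ∑ i, (c i : ℝ) * (d (k + 1 + p i) : ℝ) := by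
    rw [mul_sum, mul_sum, ← sum_sub_distrib, ← sum_sub_distrib]
    refine sum_congr rfl fun i _ => ?_
    rw [show k + 2 + p i = k + p i + 2 by ring, show k + 1 + p i = k + p i + 1 by ring, vv_rec]
    ring
  have e2 : ∑ i, (e i : ℝ) * ((N : ℝ) ^ (k + 2) * vv t N ε d (s - (k + 2) - p i))
      = t * ∑ i, (e i : ℝ) * ((N : ℝ) ^ (k + 1) * vv t N ε d (s - (k + 1) - p i))
        - N * ∑ i, (e i : ℝ) * ((N : ℝ) ^ k * vv t N ε d (s - k - p i))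
        - (N : ℝ) ^ (k + 1) * ∑ i, (e i : ℝ) * (d (s - (k + 1) - p i) : ℝ) := by
    rw [mul_sum, mul_sum, mul_sum, ← sum_sub_distrib, ← sum_sub_distrib]
    refine sum_congr rfl fun i _ => ?_
    have hpi := hp i
    have hr := vv_rec (t := t) (N := N) (ε := ε) d (s - (k + 2) - p i)
    rw [show s - k - p i = s - (k + 2) - p i + 2 by omega,
      show s - (k + 1) - p i = s - (k + 2) - p i + 1 by omega, hr, pow_succ (N : ℝ) (k + 1),
      pow_succ (N : ℝ) k]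
    linear_combination (-(e i : ℝ) * (N : ℝ) ^ k * t * vv t N ε d (s - (k + 2) - p i + 1)
      + (e i : ℝ) * (N : ℝ) ^ k * t * vv t N ε d (s - (k + 2) - p i + 1)) * hNN
  unfold uu
  rw [e1, e2]
  linear_combination (-1 : ℝ) * h'

/-- the constant for the remainders -/
noncomputable def V0 (N : ℤ) (ε B A : ℝ) : ℝ := 2 * (B * (1 - ε⁻¹)⁻¹) / (ε - cj N ε) + A

/-- the constant -/
noncomputable def C1 (N : ℤ) (ε B A : ℝ) (W : ℤ) : ℝ :=
  2 * (1 + ε) * V0 N ε B A / (ε - cj N ε) + |(W : ℝ)|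

/-- the approximations given by one relation -/
theorem raw (hb : Unt t N ε) (κ A : ℝ) (hκ : 0 ≤ κ) (hA : 0 ≤ A) (d : ℕ → ℤ) (B : ℝ)
    (hB : ∀ k, |(d k : ℝ)| ≤ B) (Z W : ℤ) (e0 : ℕ) (he0 : 1 ≤ e0) (he2 : 2 ≤ ε ^ e0) (K' : ℕ)
    (h : Rel t N ε κ A d (e0 * (K' + 3))) :
    ∃ (q s r : ℕ) (I1 I2 : ℤ) (X Y V : ℝ), 0 < q ∧ (q : ℝ) ≤ X ∧ |(q : ℝ) * ε - I1| ≤ Y ∧
      |(q : ℝ) * (tl ε d 0 + Z + W * ε) - I2| ≤ V ∧
      X * Y * V ≤ 2 / (ε - cj N ε) * C1 N ε B A W * ε ^ 4 * (1 / 2) ^ K' * ε⁻¹ ^ r ∧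
      κ * s ≤ r ∧ X ≤ 2 / (ε - cj N ε) * ε ^ (2 * s) := by
  have hB0 : 0 ≤ B := (abs_nonneg _).trans (hB 0)
  have hε := hb.pos
  have hρ := hb.rpos
  have hρ1 := hb.rlt
  have hm := hb.rmul
  have hd := hb.dpos
  have hτ : 0 < (1 - ε⁻¹)⁻¹ := inv_pos.2 (by linarith)
  have hV0 : 0 ≤ V0 N ε B A := by unfold V0; positivity
  have hC10 : 0 ≤ C1 N ε B A W := by unfold C1; positivity
  set Cu : ℝ := 2 / (ε - cj N ε) with hCu
  have hCu0 : 0 < Cu := by positivity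
  obtain ⟨ι, _, c, e, p, w, s, g, L, hp, hs, hL0, hne, hw, hrel⟩ := h
  set Mn : ℕ := ∑ i, ((c i).natAbs + (e i).natAbs) with hMn
  set M : ℝ := (Mn : ℝ) with hM
  have hM0 : 0 ≤ M := Nat.cast_nonneg _
  set lg : ℕ := Nat.log 2 Mn with hlg
  set KK : ℕ := e0 * (K' + 3) with hKK
  have hL : 2 * g + KK * (1 + lg) ≤ L := by
    have h1 : ((2 * g + KK * (1 + lg) : ℕ) : ℝ) ≤ L := by
      push_cast
      have : 0 ≤ κ * s := by positivity
      linarith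
    exact_mod_cast h1
  obtain ⟨r, hr⟩ : ∃ r, L = 2 * g + KK * (1 + lg) + r := Nat.exists_eq_add_of_le hL
  have hκr : κ * s ≤ r := by
    have h1 : (L : ℝ) = 2 * g + KK * (1 + lg) + r := by rw [hr]; push_cast; ring
    rw [h1] at hL0
    linarith
  set T : ℝ := 2 ^ (1 + lg) with hT
  have hT0 : 0 < T := by positivity
  have hT2 : 2 ≤ T := by
    rw [hT, pow_add, pow_one]
    have : (1 : ℝ) ≤ 2 ^ lg := one_le_pow₀ (by norm_num)
    linarith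
  have hMT : M ≤ T := by
    have h1 : Mn < 2 ^ (lg + 1) := Nat.lt_pow_succ_log_self (by norm_num) Mn
    have h2 : Mn ≤ 2 ^ (1 + lg) := by rw [add_comm 1 lg]; exact h1.le
    rw [hM, hT]
    exact_mod_cast h2
  have hTε : T ^ (K' + 3) ≤ ε ^ (KK * (1 + lg)) := by
    have e : ε ^ (KK * (1 + lg)) = (ε ^ e0) ^ ((1 + lg) * (K' + 3)) := by
      rw [← pow_mul, hKK]
      congr 1
      ring
    rw [e, hT, ← pow_mul]
    exact pow_le_pow_left₀ (by norm_num) he2 _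
  have hKK3 : 3 ≤ KK := by rw [hKK]; nlinarith
  have hlg3 : 3 ≤ KK * (1 + lg) := by nlinarith
  set h' : ℕ := s / 2 with hh'
  have hLg : L + g ≤ h' := by omega
  -- powers
  have hpow : ε⁻¹ ^ (KK * (1 + lg)) ≤ T⁻¹ ^ (K' + 3) := by
    rw [inv_pow, inv_pow]
    exact inv_anti₀ (by positivity) hTε
  have hbig : M ^ 2 * ε ^ g < ε ^ s := by
    have h1 : M ^ 2 ≤ T ^ 2 := pow_le_pow_left₀ hM0 hMT 2
    have h2 : T ^ 2 ≤ T ^ (K' + 3) := pow_le_pow_right₀ (by linarith) (by omega)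
    have h4 : ε ^ (KK * (1 + lg)) * ε ^ g < ε ^ s := by
      rw [← pow_add]
      exact pow_lt_pow_right₀ hb.h1 (by omega)
    calc M ^ 2 * ε ^ g ≤ ε ^ (KK * (1 + lg)) * ε ^ g := by
          have := pow_pos hε g
          gcongr
          linarith
      _ < _ := h4
  obtain ⟨m, hmh, hq⟩ := nonvanish hb c e p s g h' hp (by omega) hbig hne
  set Q : ℤ := qq t N c e p s m with hQ
  have hm1 : h' ≤ m := by omega
  have hm2 : m ≤ h' + 1 := by omega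
  have hNs : ∀ k : ℕ, |(N : ℝ) ^ k| = 1 := fun k => by rw [abs_pow, hb.absN, one_pow]
  -- size of Q
  have hQr : (Q : ℝ) = ∑ i, (c i : ℝ) * U t N (m + p i)
      - ∑ i, (e i : ℝ) * ((N : ℝ) ^ m * U t N (s - m - p i)) := by
    rw [hQ]; unfold qq; push_cast; rfl
  have hQb : |(Q : ℝ)| ≤ M * (Cu * ε ^ (h' + 1 + g)) := by
    rw [hQr]
    have hU : ∀ k, k ≤ h' + 1 + g → |(U t N k : ℝ)| ≤ Cu * ε ^ (h' + 1 + g) := by
      intro k hk
      refine (hb.U_bound k).trans ?_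
      exact mul_le_mul_of_nonneg_left (pow_le_pow_right₀ hb.h1.le hk) hCu0.le
    exact comb_bound c e (fun i => (U t N (m + p i) : ℝ))
      (fun i => (N : ℝ) ^ m * (U t N (s - m - p i) : ℝ)) _
      (fun i => hU _ (by have := hp i; omega))
      (fun i => by rw [abs_mul, hNs, one_mul]; exact hU _ (by omega))
  -- Q ε
  set Δ : ℝ := ∑ i, (c i : ℝ) * cj N ε ^ (m + p i)
    - ∑ i, (e i : ℝ) * ((N : ℝ) ^ m * cj N ε ^ (s - m - p i)) with hΔ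
  have hΔb : |Δ| ≤ M * ε⁻¹ ^ (h' - 1 - g) := by
    have hR : ∀ k, h' - 1 - g ≤ k → |cj N ε ^ k| ≤ ε⁻¹ ^ (h' - 1 - g) := by
      intro k hk
      rw [hb.abs_cj_pow]
      exact pow_le_pow_of_le_one hρ.le hb.rlt.le hk
    exact comb_bound c e (fun i => cj N ε ^ (m + p i)) (fun i => (N : ℝ) ^ m * cj N ε ^ (s - m - p i)) _
      (fun i => hR _ (by omega))
      (fun i => by rw [abs_mul, hNs, one_mul]; exact hR _ (by have := hp i; omega))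
  set I1 : ℤ := ∑ i, c i * U t N (m + p i + 1) - ∑ i, e i * (N ^ m * U t N (s - m - p i + 1)) with hI1
  have hQε : (Q : ℝ) * ε = I1 - Δ := by
    rw [hQr, hI1, hΔ, sub_mul, sum_mul, sum_mul]
    push_cast
    have e1 : ∑ i, (c i : ℝ) * U t N (m + p i) * ε
        = ∑ i, (c i : ℝ) * U t N (m + p i + 1) - ∑ i, (c i : ℝ) * cj N ε ^ (m + p i) := by
      rw [← sum_sub_distrib]
      refine sum_congr rfl fun i _ => ?_
      rw [← hb.U_diff (m + p i)]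
      ring
    have e2 : ∑ i, (e i : ℝ) * ((N : ℝ) ^ m * U t N (s - m - p i)) * ε
        = ∑ i, (e i : ℝ) * ((N : ℝ) ^ m * U t N (s - m - p i + 1))
          - ∑ i, (e i : ℝ) * ((N : ℝ) ^ m * cj N ε ^ (s - m - p i)) := by
      rw [← sum_sub_distrib]
      refine sum_congr rfl fun i _ => ?_
      rw [← hb.U_diff (s - m - p i)]
      ring
    rw [e1, e2]
    ring
  -- Q β
  set I2 : ℤ := ∑ i, c i * nn t N d (m + p i) - ∑ i, e i * (N ^ m * nn t N d (s - m - p i)) with hI2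
  have hQβ : (Q : ℝ) * tl ε d 0 = I2 + uu t N ε d c e p s m := by
    rw [hQr, hI2, sub_mul, sum_mul, sum_mul]
    unfold uu vv
    push_cast
    have e1 : ∑ i, (c i : ℝ) * U t N (m + p i) * tl ε d 0 = ∑ i, (c i : ℝ) * nn t N d (m + p i)
        + ∑ i, (c i : ℝ) * ((U t N (m + p i) : ℝ) * tl ε d 0 - nn t N d (m + p i)) := by
      rw [← sum_add_distrib]
      exact sum_congr rfl fun i _ => by ring
    have e2 : ∑ i, (e i : ℝ) * ((N : ℝ) ^ m * U t N (s - m - p i)) * tl ε d 0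
        = ∑ i, (e i : ℝ) * ((N : ℝ) ^ m * nn t N d (s - m - p i))
        + ∑ i, (e i : ℝ) * ((N : ℝ) ^ m
          * ((U t N (s - m - p i) : ℝ) * tl ε d 0 - nn t N d (s - m - p i))) := by
      rw [← sum_add_distrib]
      exact sum_congr rfl fun i _ => by ring
    rw [e1, e2]
    ring
  -- smallness of u
  have hub : ∀ k, |uu t N ε d c e p s k + w k| ≤ M * V0 N ε B A := by
    intro k
    have h1 : |uu t N ε d c e p s k| ≤ M * (2 * (B * (1 - ε⁻¹)⁻¹) / (ε - cj N ε)) :=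
      comb_bound c e (fun i => vv t N ε d (k + p i)) (fun i => (N : ℝ) ^ k * vv t N ε d (s - k - p i)) _
        (fun i => vv_bound hb d B hB _)
        (fun i => by rw [abs_mul, hNs, one_mul]; exact vv_bound hb d B hB _)
    have h2 := hw k
    refine (abs_add_le _ _).trans ((add_le_add h1 h2).trans (le_of_eq ?_))
    unfold V0
    ring
  have hwin := window hb (fun k => uu t N ε d c e p s k + w k) (M * V0 N ε B A) hub (h' - L) m
    (h' + L - 1) (by omega) (by omega) (by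
      intro k hk1 hk2
      exact uu_rec hb d c e p w s g k hp (by omega) (hrel k (by omega) (by omega)))
  have hu : |uu t N ε d c e p s m + w m|
      ≤ (1 + ε) * (M * V0 N ε B A) / (ε - cj N ε) * (2 * ε⁻¹ ^ (L - 2)) := by
    refine hwin.trans ?_
    have h1 : ε⁻¹ ^ (h' + L - 1 - m) ≤ ε⁻¹ ^ (L - 2) :=
      pow_le_pow_of_le_one hρ.le hb.rlt.le (by omega)
    have h2 : ε⁻¹ ^ (m - (h' - L)) ≤ ε⁻¹ ^ (L - 2) :=
      pow_le_pow_of_le_one hρ.le hb.rlt.le (by omega)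
    have h3 : 0 ≤ (1 + ε) * (M * V0 N ε B A) / (ε - cj N ε) := by positivity
    refine mul_le_mul_of_nonneg_left ?_ h3
    linarith
  have hΔ2 : |Δ| ≤ M * ε⁻¹ ^ (L - 2) := by
    refine hΔb.trans ?_
    refine mul_le_mul_of_nonneg_left ?_ hM0
    exact pow_le_pow_of_le_one hρ.le hb.rlt.le (by omega)
  -- the natural number
  obtain ⟨σ, hσ, hσQ⟩ : ∃ σ : ℤ, |(σ : ℝ)| = 1 ∧ ((Q.natAbs : ℕ) : ℝ) = σ * Q := by
    rcases le_total 0 Q with h0 | h0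
    · refine ⟨1, by norm_num, ?_⟩
      rw [Nat.cast_natAbs, abs_of_nonneg h0]; push_cast; ring
    · refine ⟨-1, by norm_num, ?_⟩
      rw [Nat.cast_natAbs, abs_of_nonpos h0]; push_cast; ring
  have hQn : ((Q.natAbs : ℕ) : ℝ) ≤ M * (Cu * ε ^ (h' + 1 + g)) := by
    rw [Nat.cast_natAbs, Int.cast_abs]
    exact hQb
  refine ⟨Q.natAbs, s, r, σ * I1, σ * (I2 - w m + Q * Z + W * I1), M * (Cu * ε ^ (h' + 1 + g)),
    M * ε⁻¹ ^ (h' - 1 - g), C1 N ε B A W * M * ε⁻¹ ^ (L - 2), Int.natAbs_pos.2 hq, hQn, ?_, ?_, ?_,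
    hκr, ?_⟩
  · have : ((Q.natAbs : ℕ) : ℝ) * ε - ((σ * I1 : ℤ) : ℝ) = - (σ * Δ) := by
      rw [hσQ]
      push_cast
      linear_combination (σ : ℝ) * hQε
    rw [this, abs_neg, abs_mul, hσ, one_mul]
    exact hΔb
  · have : ((Q.natAbs : ℕ) : ℝ) * (tl ε d 0 + Z + W * ε)
        - ((σ * (I2 - w m + Q * Z + W * I1) : ℤ) : ℝ)
        = σ * ((uu t N ε d c e p s m + w m) - W * Δ) := by
      rw [hσQ]
      push_cast
      linear_combination (σ : ℝ) * hQβ + (σ : ℝ) * W * hQε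
    rw [this, abs_mul, hσ, one_mul]
    refine (abs_sub _ _).trans ?_
    rw [abs_mul]
    calc |uu t N ε d c e p s m + w m| + |(W : ℝ)| * |Δ|
        ≤ (1 + ε) * (M * V0 N ε B A) / (ε - cj N ε) * (2 * ε⁻¹ ^ (L - 2))
          + |(W : ℝ)| * (M * ε⁻¹ ^ (L - 2)) := by
          gcongr
      _ = _ := by unfold C1; ring
  · have hε4 : ε⁻¹ ^ (L - 2) ≤ ε ^ 2 * (ε⁻¹ ^ (2 * g) * T⁻¹ ^ (K' + 3) * ε⁻¹ ^ r) := by
      have h1 : ε⁻¹ ^ (L - 2) = ε ^ 2 * ε⁻¹ ^ L := by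
        have h2 : ε⁻¹ ^ L = ε⁻¹ ^ (L - 2) * ε⁻¹ ^ 2 := by rw [← pow_add]; congr 1; omega
        have : ε ^ 2 * ε⁻¹ ^ 2 = 1 := by rw [← mul_pow, hm, one_pow]
        rw [h2]
        linear_combination (-ε⁻¹ ^ (L - 2)) * this
      rw [h1]
      refine mul_le_mul_of_nonneg_left ?_ (by positivity)
      calc ε⁻¹ ^ L = ε⁻¹ ^ (2 * g) * ε⁻¹ ^ (KK * (1 + lg)) * ε⁻¹ ^ r := by
            rw [← pow_add, ← pow_add, ← hr]
        _ ≤ _ := by gcongr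
    have hcomb : ε ^ (h' + 1 + g) * ε⁻¹ ^ (h' - 1 - g) = ε ^ 2 * ε ^ (2 * g) := by
      have h1 : ε ^ (h' - 1 - g) * ε⁻¹ ^ (h' - 1 - g) = 1 := by rw [← mul_pow, hm, one_pow]
      rw [show h' + 1 + g = (h' - 1 - g) + 2 + 2 * g by omega, pow_add, pow_add]
      linear_combination (ε ^ 2 * ε ^ (2 * g)) * h1
    have hgg : ε ^ (2 * g) * ε⁻¹ ^ (2 * g) = 1 := by rw [← mul_pow, hm, one_pow]
    have hM3 : M ^ 3 * T⁻¹ ^ 3 ≤ 1 := by
      have h1 : M ^ 3 ≤ T ^ 3 := pow_le_pow_left₀ hM0 hMT 3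
      have h2 : T ^ 3 * T⁻¹ ^ 3 = 1 := by rw [← mul_pow, mul_inv_cancel₀ hT0.ne', one_pow]
      calc M ^ 3 * T⁻¹ ^ 3 ≤ T ^ 3 * T⁻¹ ^ 3 := by gcongr
        _ = 1 := h2
    have hTK : T⁻¹ ^ K' ≤ (1 / 2) ^ K' := by
      refine pow_le_pow_left₀ (by positivity) ?_ _
      rw [one_div]
      exact inv_anti₀ (by norm_num) hT2
    set c1 := C1 N ε B A W with hc1
    calc (M * (Cu * ε ^ (h' + 1 + g))) * (M * ε⁻¹ ^ (h' - 1 - g)) * (c1 * M * ε⁻¹ ^ (L - 2))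
        = Cu * c1 * M ^ 3 * (ε ^ (h' + 1 + g) * ε⁻¹ ^ (h' - 1 - g)) * ε⁻¹ ^ (L - 2) := by ring
      _ = Cu * c1 * M ^ 3 * (ε ^ 2 * ε ^ (2 * g)) * ε⁻¹ ^ (L - 2) := by rw [hcomb]
      _ ≤ Cu * c1 * M ^ 3 * (ε ^ 2 * ε ^ (2 * g))
            * (ε ^ 2 * (ε⁻¹ ^ (2 * g) * T⁻¹ ^ (K' + 3) * ε⁻¹ ^ r)) := by
          gcongr
      _ = Cu * c1 * ε ^ 4 * (ε ^ (2 * g) * ε⁻¹ ^ (2 * g)) * (M ^ 3 * T⁻¹ ^ 3) * T⁻¹ ^ K' * ε⁻¹ ^ r := by
          ring
      _ = Cu * c1 * ε ^ 4 * (M ^ 3 * T⁻¹ ^ 3) * T⁻¹ ^ K' * ε⁻¹ ^ r := by rw [hgg, mul_one]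
      _ ≤ Cu * c1 * ε ^ 4 * 1 * (1 / 2) ^ K' * ε⁻¹ ^ r := by gcongr
      _ = _ := by ring
  · have h1 : T ≤ ε ^ L := by
      calc T ≤ T ^ (K' + 3) := by
            calc T = T ^ 1 := (pow_one T).symm
              _ ≤ _ := pow_le_pow_right₀ (by linarith) (by omega)
        _ ≤ ε ^ (KK * (1 + lg)) := hTε
        _ ≤ ε ^ L := pow_le_pow_right₀ hb.h1.le (by omega)
    calc M * (Cu * ε ^ (h' + 1 + g)) = Cu * (M * ε ^ (h' + 1 + g)) := by ring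
      _ ≤ Cu * (ε ^ L * ε ^ (h' + 1 + g)) := by
          have := pow_pos hε (h' + 1 + g)
          gcongr
          exact hMT.trans h1
      _ = Cu * ε ^ (L + (h' + 1 + g)) := by rw [← pow_add]
      _ ≤ Cu * ε ^ (2 * s) := by
          gcongr
          · exact hb.h1.le
          · omega

end Pool.Agent.Helper553.DS
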