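import Pool.Agent.Helper553_DS.B

/-! # Multiplication by elements of the quadratic field, final form -/

set_option autoImplicit false

open Finset

namespace Pool.Agent.Helper553.DS

open Pool.Agent.W13.LM (LC lc_of_inf dist_scale)

variable {t N : ℤ} {ε : ℝ}

/-- the digits of `(X + Y ε) β` -/
def fl (X Y : ℤ) (d : ℕ → ℤ) (k : ℕ) : ℤ := X * d k + Y * d (k + 1)

lemma log_mul_le (a b : ℕ) : Nat.log 2 (a * b) ≤ Nat.log 2 a + Nat.log 2 b + 1 := by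
  rcases Nat.eq_zero_or_pos (a * b) with h0 | h0
  · rw [h0]; simp
  · have h1 : a < 2 ^ (Nat.log 2 a + 1) := Nat.lt_pow_succ_log_self (by norm_num) a
    have h2 : b < 2 ^ (Nat.log 2 b + 1) := Nat.lt_pow_succ_log_self (by norm_num) b
    have h3 : a * b < 2 ^ (Nat.log 2 a + Nat.log 2 b + 1 + 1) := by
      calc a * b < 2 ^ (Nat.log 2 a + 1) * 2 ^ (Nat.log 2 b + 1) := Nat.mul_lt_mul'' h1 h2
        _ = 2 ^ (Nat.log 2 a + Nat.log 2 b + 1 + 1) := by rw [← pow_add]; congr 1; ring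
    have h4 := Nat.log_lt_of_lt_pow h0.ne' h3
    omega

lemma rel_fl (hb : Unt t N ε) (κ A : ℝ) (hκ : 0 ≤ κ) (hA : 0 ≤ A) (d : ℕ → ℤ) (X Y : ℤ)
    (h : ∀ K, Rel t N ε κ A d K) (K' : ℕ) :
    Rel t N ε κ (((X.natAbs + Y.natAbs : ℕ) : ℝ) * A) (fl X Y d) K' := by
  by_cases hXY : X = 0 ∧ Y = 0
  · obtain ⟨rfl, rfl⟩ := hXY
    obtain ⟨ι, _, c, e, p, w, s, g, L, hp, hs, hL, hne, hw, hrel⟩ := h K'
    exact ⟨ι, _, c, e, p, fun _ => 0, s, g, L, hp, hs, hL, hne, by intro k; simp,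
      by intro k _ _; simp [fl]⟩
  have hXY' : X ≠ 0 ∨ Y ≠ 0 := by
    by_contra hcon
    push Not at hcon
    exact hXY hcon
  have hNN : N * N = 1 := by rcases hb.hN with h | h <;> rw [h] <;> norm_num
  have hNN' := hb.NN
  have hNabs : N.natAbs = 1 := by rcases hb.hN with h | h <;> rw [h] <;> rfl
  set lam : ℕ := Nat.log 2 (X.natAbs + Y.natAbs) with hlam
  obtain ⟨ι, _, c, e, p, w, s, g, L, hp, hs, hL, hne, hw, hrel⟩ := h (4 + K' * (2 + lam))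
  set M : ℕ := ∑ i, ((c i).natAbs + (e i).natAbs) with hM
  have hL4 : 2 * g + 4 ≤ L := by
    have h1 : ((2 * g + 4 : ℕ) : ℝ) ≤ L := by
      refine le_trans ?_ hL
      push_cast
      have h2 : 0 ≤ κ * s := by positivity
      have h3 : (0 : ℝ) ≤ (Nat.log 2 M : ℝ) := Nat.cast_nonneg _
      have h4 : (0 : ℝ) ≤ (K' : ℝ) * (2 + lam) := by positivity
      nlinarith
    exact_mod_cast h1
  have hM' : ∑ i : ι ⊕ ι, ((Sum.elim (fun i => Y * c i) (fun i => N * X * c i) i).natAbs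
      + (Sum.elim (fun i => X * e i) (fun i => N * Y * e i) i).natAbs)
      = (X.natAbs + Y.natAbs) * M := by
    rw [Fintype.sum_sum_type, hM, mul_sum, ← sum_add_distrib]
    refine sum_congr rfl fun i _ => ?_
    simp only [Sum.elim_inl, Sum.elim_inr, Int.natAbs_mul, hNabs]
    ring
  refine ⟨ι ⊕ ι, inferInstance, Sum.elim (fun i => Y * c i) (fun i => N * X * c i),
    Sum.elim (fun i => X * e i) (fun i => N * Y * e i), Sum.elim p (fun i => p i + 1),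
    fun k => X * Y * w k + (Y ^ 2 + N * X ^ 2) * w (k + 1) + N * X * Y * w (k + 2),
    s - 1, g + 1, L - 2, ?_, by omega, ?_, ?_, ?_, ?_⟩
  · rintro (i | i)
    · have := hp i
      simp only [Sum.elim_inl]
      omega
    · have := hp i
      simp only [Sum.elim_inr]
      omega
  · rw [hM']
    have h1 := log_mul_le (X.natAbs + Y.natAbs) M
    have h2 : (Nat.log 2 ((X.natAbs + Y.natAbs) * M) : ℝ) ≤ lam + Nat.log 2 M + 1 := by
      exact_mod_cast h1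
    have h4 : ((L - 2 : ℕ) : ℝ) = L - 2 := by
      rw [Nat.cast_sub (by omega)]; norm_num
    have h3 : ((s - 1 : ℕ) : ℝ) ≤ s := by exact_mod_cast Nat.sub_le s 1
    rw [h4]
    push_cast at hL ⊢
    have h5 : κ * ((s - 1 : ℕ) : ℝ) ≤ κ * s := by gcongr
    have h6 : (K' : ℝ) * (1 + (Nat.log 2 ((X.natAbs + Y.natAbs) * M) : ℝ))
        ≤ K' * (1 + (lam + Nat.log 2 M + 1)) := by gcongr
    have h7 : (0 : ℝ) ≤ (Nat.log 2 M : ℝ) := Nat.cast_nonneg _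
    have h8 : (0 : ℝ) ≤ (lam : ℝ) := Nat.cast_nonneg _
    have h9 : (0 : ℝ) ≤ (K' : ℝ) := Nat.cast_nonneg _
    have h10 : (K' : ℝ) * (1 + (lam + Nat.log 2 M + 1)) + 4
        ≤ (4 + K' * (2 + lam)) * (1 + Nat.log 2 M) := by
      have h11 : (0 : ℝ) ≤ K' * lam * Nat.log 2 M := by positivity
      have h12 : (0 : ℝ) ≤ K' * Nat.log 2 M := by positivity
      nlinarith
    linarith
  · have e1 : ∑ i : ι ⊕ ι, ((Sum.elim (fun i => Y * c i) (fun i => N * X * c i) i : ℤ) : ℝ)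
        * ε ^ (Sum.elim p (fun i => p i + 1) i)
        = ((Y : ℝ) + (N * X : ℤ) * ε) * ∑ i, (c i : ℝ) * ε ^ p i := by
      rw [Fintype.sum_sum_type, mul_sum, ← sum_add_distrib]
      refine sum_congr rfl fun i _ => ?_
      simp only [Sum.elim_inl, Sum.elim_inr]
      push_cast
      ring
    have e2 : ∑ i : ι ⊕ ι, ((Sum.elim (fun i => X * e i) (fun i => N * Y * e i) i : ℤ) : ℝ)
        * ((N : ℝ) * ε) ^ (Sum.elim p (fun i => p i + 1) i)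
        = ((X : ℝ) + Y * ε) * ∑ i, (e i : ℝ) * ((N : ℝ) * ε) ^ p i := by
      rw [Fintype.sum_sum_type, mul_sum, ← sum_add_distrib]
      refine sum_congr rfl fun i _ => ?_
      simp only [Sum.elim_inl, Sum.elim_inr]
      push_cast
      rw [pow_succ]
      linear_combination ((Y : ℝ) * e i * (N * ε) ^ p i * ε) * hNN'
    rw [e1, e2]
    have hNX : Y ≠ 0 ∨ N * X ≠ 0 := by
      rcases hXY' with h1 | h1
      · right
        intro h2
        apply h1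
        have : N * (N * X) = 0 := by rw [h2]; ring
        rw [← mul_assoc, hNN, one_mul] at this
        exact this
      · exact Or.inl h1
    rcases hne with h1 | h1
    · exact Or.inl (mul_ne_zero (lin_ne hb Y (N * X) hNX) h1)
    · exact Or.inr (mul_ne_zero (lin_ne hb X Y hXY') h1)
  · intro k
    rw [hM']
    have w0 := hw k
    have w1 := hw (k + 1)
    have w2 := hw (k + 2)
    have hx0 := abs_nonneg (X : ℝ)
    have hy0 := abs_nonneg (Y : ℝ)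
    push_cast
    set MM : ℝ := A * (M : ℝ) with hMM
    have hMM0 : 0 ≤ MM := by positivity
    have hcast : ((X.natAbs : ℕ) : ℝ) = |(X : ℝ)| := by rw [Nat.cast_natAbs, Int.cast_abs]
    have hcast' : ((Y.natAbs : ℕ) : ℝ) = |(Y : ℝ)| := by rw [Nat.cast_natAbs, Int.cast_abs]
    rw [hcast, hcast']
    have a1 : |(X : ℝ) * Y * w k| ≤ |(X : ℝ)| * |(Y : ℝ)| * MM := by
      rw [abs_mul, abs_mul]; gcongr
    have a3 : |(N : ℝ) * X * Y * w (k + 2)| ≤ |(X : ℝ)| * |(Y : ℝ)| * MM := by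
      rw [abs_mul, abs_mul, abs_mul, hb.absN, one_mul]; gcongr
    have a2 : |((Y : ℝ) ^ 2 + N * X ^ 2) * w (k + 1)| ≤ (|(X : ℝ)| ^ 2 + |(Y : ℝ)| ^ 2) * MM := by
      rw [abs_mul]
      refine mul_le_mul ?_ w1 (abs_nonneg _) (by positivity)
      refine (abs_add_le _ _).trans ?_
      rw [abs_mul, hb.absN, one_mul, abs_pow, abs_pow]
      linarith
    calc |(X : ℝ) * Y * w k + ((Y : ℝ) ^ 2 + N * X ^ 2) * w (k + 1) + N * X * Y * w (k + 2)|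
        ≤ |(X : ℝ) * Y * w k| + |((Y : ℝ) ^ 2 + N * X ^ 2) * w (k + 1)|
          + |(N : ℝ) * X * Y * w (k + 2)| := abs_add_three _ _ _
      _ ≤ |(X : ℝ)| * |(Y : ℝ)| * MM + (|(X : ℝ)| ^ 2 + |(Y : ℝ)| ^ 2) * MM
          + |(X : ℝ)| * |(Y : ℝ)| * MM := by linarith
      _ = _ := by rw [hMM]; ring
  · intro k hk1 hk2
    have r0 := hrel k (by omega) (by omega)
    have r1 := hrel (k + 1) (by omega) (by omega)
    have r2 := hrel (k + 2) (by omega) (by omega)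
    have e1 : ∑ i : ι ⊕ ι, Sum.elim (fun i => Y * c i) (fun i => N * X * c i) i
        * fl X Y d (k + 1 + Sum.elim p (fun i => p i + 1) i)
        = X * Y * ∑ i, c i * d (k + 1 + p i) + (Y ^ 2 + N * X ^ 2) * ∑ i, c i * d (k + 1 + 1 + p i)
          + N * X * Y * ∑ i, c i * d (k + 2 + 1 + p i) := by
      rw [Fintype.sum_sum_type, mul_sum, mul_sum, mul_sum, ← sum_add_distrib, ← sum_add_distrib,
        ← sum_add_distrib]
      refine sum_congr rfl fun i _ => ?_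
      simp only [Sum.elim_inl, Sum.elim_inr, fl]
      rw [show k + 1 + (p i + 1) = k + 1 + p i + 1 by ring,
        show k + 1 + 1 + p i = k + 1 + p i + 1 by ring,
        show k + 2 + 1 + p i = k + 1 + p i + 1 + 1 by ring]
      ring
    have e2 : N ^ (k + 1) * ∑ i : ι ⊕ ι, Sum.elim (fun i => X * e i) (fun i => N * Y * e i) i
        * fl X Y d (s - 1 - (k + 1) - Sum.elim p (fun i => p i + 1) i)
        = X * Y * (N ^ (k + 1) * ∑ i, e i * d (s - (k + 1) - p i))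
          + (Y ^ 2 + N * X ^ 2) * (N ^ (k + 1 + 1) * ∑ i, e i * d (s - (k + 1 + 1) - p i))
          + N * X * Y * (N ^ (k + 2 + 1) * ∑ i, e i * d (s - (k + 2 + 1) - p i)) := by
      rw [Fintype.sum_sum_type, mul_sum, mul_sum, mul_sum, ← sum_add_distrib, mul_sum, mul_sum,
        mul_sum, mul_sum, ← sum_add_distrib, ← sum_add_distrib]
      refine sum_congr rfl fun i _ => ?_
      simp only [Sum.elim_inl, Sum.elim_inr, fl]
      have hpi := hp i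
      rw [show s - 1 - (k + 1) - (p i + 1) + 1 = s - 1 - (k + 1) - p i by omega,
        show s - 1 - (k + 1) - p i + 1 = s - (k + 1) - p i by omega,
        show s - 1 - (k + 1) - (p i + 1) = s - (k + 2 + 1) - p i by omega,
        show s - 1 - (k + 1) - p i = s - (k + 1 + 1) - p i by omega,
        pow_succ N (k + 1), pow_succ N (k + 2), pow_succ N (k + 1)]
      linear_combination (-(e i) * N ^ (k + 1) * d (s - (k + 1 + 1) - p i) * X ^ 2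
        - N ^ (k + 1) * e i * X * Y * N * d (s - (k + 2 + 1) - p i)) * hNN
    rw [e1, e2]
    linear_combination X * Y * r0 + (Y ^ 2 + N * X ^ 2) * r1 + N * X * Y * r2

lemma tl_fl (hb : Unt t N ε) (d : ℕ → ℤ) (B : ℝ) (hB : ∀ k, |(d k : ℝ)| ≤ B) (X Y : ℤ) :
    tl ε (fl X Y d) 0 = X * tl ε d 0 + Y * (ε * (tl ε d 0 - d 0)) := by
  have h1 : tl ε (fl X Y d) 0 = X * tl ε d 0 + Y * tl ε d 1 := by
    unfold tl
    rw [← tsum_mul_left, ← tsum_mul_left,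
      ← ((summ hb d B hB 0).mul_left (X : ℝ)).tsum_add ((summ hb d B hB 1).mul_left (Y : ℝ))]
    apply tsum_congr
    intro i
    simp only [fl, add_zero]
    push_cast
    ring
  have h2 := tl_rec hb d B hB 0
  rw [zero_add] at h2
  have h3 : tl ε d 1 = ε * (tl ε d 0 - d 0) := by
    rw [h2]
    calc tl ε d 1 = (ε * ε⁻¹) * tl ε d 1 := by rw [hb.rmul, one_mul]
      _ = _ := by ring
  rw [h1, h3]

lemma fl_bound (d : ℕ → ℤ) (B : ℝ) (hB : ∀ k, |(d k : ℝ)| ≤ B) (X Y : ℤ) (k : ℕ) :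
    |((fl X Y d k : ℤ) : ℝ)| ≤ |(X : ℝ)| * B + |(Y : ℝ)| * B := by
  unfold fl
  push_cast
  refine (abs_add_le _ _).trans ?_
  rw [abs_mul, abs_mul]
  have h1 := hB k
  have h2 := hB (k + 1)
  gcongr

lemma clr (r : ℚ) (N : ℕ) (h : r.den ∣ N) : ∃ A : ℤ, (N : ℝ) * (r : ℝ) = A := by
  obtain ⟨k, rfl⟩ := h
  refine ⟨r.num * k, ?_⟩
  have h1 : ((r * r.den : ℚ) : ℝ) = ((r.num : ℚ) : ℝ) := by rw [Rat.mul_den_eq_num]
  push_cast at h1 ⊢
  linear_combination (k : ℝ) * h1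

/-- the approximations for the general pair -/
theorem raw2 (hb : Unt t N ε) (κ A : ℝ) (hκ : 0 ≤ κ) (hA : 0 ≤ A) (d : ℕ → ℤ) (B : ℝ)
    (hB : ∀ k, |(d k : ℝ)| ≤ B) (h : ∀ K, Rel t N ε κ A d K) (a b x y z w : ℚ) :
    ∃ D C : ℝ, 0 < D ∧ 0 ≤ C ∧ ∀ K : ℕ, ∃ (q s r : ℕ), 0 < q ∧
      (q : ℝ) ≤ D * ε ^ (2 * s) ∧ κ * s ≤ r ∧
      (q : ℝ) * |(q : ℝ) * (a + b * ε) - round ((q : ℝ) * (a + b * ε))|
        * |(q : ℝ) * ((x + y * ε) * tl ε d 0 + (z + w * ε))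
          - round ((q : ℝ) * ((x + y * ε) * tl ε d 0 + (z + w * ε)))|
        ≤ C * (1 / 2) ^ K * ε⁻¹ ^ r := by
  obtain ⟨n0, hN, d1, d2, d3, d4, d5, d6⟩ : ∃ N : ℕ, 0 < N ∧ a.den ∣ N ∧ b.den ∣ N ∧ x.den ∣ N ∧
      y.den ∣ N ∧ z.den ∣ N ∧ w.den ∣ N := by
    refine ⟨a.den * b.den * x.den * y.den * z.den * w.den, ?_, ⟨b.den * x.den * y.den * z.den * w.den,
      by ring⟩, ⟨a.den * x.den * y.den * z.den * w.den, by ring⟩,
      ⟨a.den * b.den * y.den * z.den * w.den, by ring⟩,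
      ⟨a.den * b.den * x.den * z.den * w.den, by ring⟩,
      ⟨a.den * b.den * x.den * y.den * w.den, by ring⟩,
      ⟨a.den * b.den * x.den * y.den * z.den, by ring⟩⟩
    have := a.den_pos
    have := b.den_pos
    have := x.den_pos
    have := y.den_pos
    have := z.den_pos
    have := w.den_pos
    positivity
  obtain ⟨A0, hA0⟩ := clr a n0 d1
  obtain ⟨B0, hB0⟩ := clr b n0 d2
  obtain ⟨X, hX⟩ := clr x n0 d3
  obtain ⟨Y, hY⟩ := clr y n0 d4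
  obtain ⟨Z, hZ⟩ := clr z n0 d5
  obtain ⟨W, hW⟩ := clr w n0 d6
  have hε := hb.pos
  have hB00 : 0 ≤ B := (abs_nonneg _).trans (hB 0)
  have hd := hb.dpos
  have hN0 : (0 : ℝ) < n0 := by exact_mod_cast hN
  obtain ⟨e0, he0⟩ : ∃ e0 : ℕ, 2 < ε ^ e0 := pow_unbounded_of_one_lt 2 hb.h1
  have he2 : 2 ≤ ε ^ (e0 + 1) := by
    rw [pow_succ]
    nlinarith [hb.h1]
  set B' : ℝ := |(X : ℝ)| * B + |(Y : ℝ)| * B with hB'
  set A' : ℝ := ((X.natAbs + Y.natAbs : ℕ) : ℝ) * A with hA'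
  have hA'0 : 0 ≤ A' := by positivity
  set W' : ℤ := W + Y * d 0 with hW'
  set Cu : ℝ := 2 / (ε - cj N ε) with hCu
  have hCu0 : 0 < Cu := by positivity
  have hC10 : 0 ≤ C1 N ε B' A' W' := by
    have h1 : 0 < (1 - ε⁻¹)⁻¹ := inv_pos.2 (by linarith [hb.rlt])
    unfold C1 V0
    positivity
  refine ⟨n0 * Cu, n0 * |(B0 : ℝ)| * (Cu * C1 N ε B' A' W' * ε ^ 4), by positivity, by positivity,
    fun K => ?_⟩
  obtain ⟨q, s, r, I1, I2, x1, y1, v1, hq, h1, h2, h3, h4, h5, h6⟩ :=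
    raw hb κ A' hκ hA'0 (fl X Y d) B' (fl_bound d B hB X Y) Z W' (e0 + 1) (by omega) he2 K
      (rel_fl hb κ A hκ hA d X Y h _)
  have hy1 : 0 ≤ y1 := (abs_nonneg _).trans h2
  have hv1 : 0 ≤ v1 := (abs_nonneg _).trans h3
  have hq0 : (0 : ℝ) ≤ q := Nat.cast_nonneg _
  refine ⟨n0 * q, s, r, Nat.mul_pos hN hq, ?_, h5, ?_⟩
  · push_cast
    rw [mul_assoc]
    exact mul_le_mul_of_nonneg_left (h1.trans h6) hN0.le
  · have f1 : |((n0 * q : ℕ) : ℝ) * (a + b * ε) - round (((n0 * q : ℕ) : ℝ) * (a + b * ε))|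
        ≤ |(B0 : ℝ)| * y1 := by
      refine (round_le _ (q * A0 + B0 * I1)).trans ?_
      have : ((n0 * q : ℕ) : ℝ) * (a + b * ε) - ((q * A0 + B0 * I1 : ℤ) : ℝ)
          = B0 * ((q : ℝ) * ε - I1) := by
        push_cast
        linear_combination (q : ℝ) * hA0 + (q : ℝ) * ε * hB0
      rw [this, abs_mul]
      gcongr
    have f2 : |((n0 * q : ℕ) : ℝ) * ((x + y * ε) * tl ε d 0 + (z + w * ε))
        - round (((n0 * q : ℕ) : ℝ) * ((x + y * ε) * tl ε d 0 + (z + w * ε)))| ≤ v1 := by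
      refine (round_le _ I2).trans ?_
      have : ((n0 * q : ℕ) : ℝ) * ((x + y * ε) * tl ε d 0 + (z + w * ε))
          = (q : ℝ) * (tl ε (fl X Y d) 0 + Z + W' * ε) := by
        rw [tl_fl hb d B hB X Y, hW']
        push_cast
        linear_combination (q : ℝ) * tl ε d 0 * hX + (q : ℝ) * ε * tl ε d 0 * hY
          + (q : ℝ) * hZ + (q : ℝ) * ε * hW
      rw [this]
      exact h3
    have f3 : ((n0 * q : ℕ) : ℝ) ≤ n0 * x1 := by
      push_cast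
      exact mul_le_mul_of_nonneg_left h1 hN0.le
    have hx1 : 0 ≤ x1 := hq0.trans h1
    calc ((n0 * q : ℕ) : ℝ)
          * |((n0 * q : ℕ) : ℝ) * (a + b * ε) - round (((n0 * q : ℕ) : ℝ) * (a + b * ε))|
          * |((n0 * q : ℕ) : ℝ) * ((x + y * ε) * tl ε d 0 + (z + w * ε))
            - round (((n0 * q : ℕ) : ℝ) * ((x + y * ε) * tl ε d 0 + (z + w * ε)))|
        ≤ (n0 * x1) * (|(B0 : ℝ)| * y1) * v1 := by gcongr
      _ = n0 * |(B0 : ℝ)| * (x1 * y1 * v1) := by ring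
      _ ≤ n0 * |(B0 : ℝ)| * (Cu * C1 N ε B' A' W' * ε ^ 4 * (1 / 2) ^ K * ε⁻¹ ^ r) := by
          gcongr
      _ = _ := by ring

/-- `q ^ (1 + η) ‖q α‖ ‖q β‖ < 1` for some `η > 0` and arbitrarily large `q`. -/
def PS (α β : ℝ) : Prop :=
  ∃ η : ℝ, 0 < η ∧ ∀ N : ℕ, ∃ q : ℕ, N ≤ q ∧ 0 < q ∧
    (q : ℝ) ^ (1 + η) * |(q : ℝ) * α - (round ((q : ℝ) * α) : ℝ)|
      * |(q : ℝ) * β - (round ((q : ℝ) * β) : ℝ)| < 1

lemma ps_of_inf {α β η : ℝ} (hη : 0 < η)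
    (h : ∀ δ : ℝ, 0 < δ → ∃ q : ℕ, 0 < q ∧
      (q : ℝ) ^ (1 + η) * |(q : ℝ) * α - (round ((q : ℝ) * α) : ℝ)|
      * |(q : ℝ) * β - (round ((q : ℝ) * β) : ℝ)| < δ) : PS α β := by
  refine ⟨η, hη, fun N => ?_⟩
  have hN : (0 : ℝ) < ((N + 1 : ℕ) : ℝ) := by positivity
  have hP : (0 : ℝ) < ((N + 1 : ℕ) : ℝ) ^ (1 + η) := Real.rpow_pos_of_pos hN _
  obtain ⟨q, hq, hlt⟩ := h (1 / (((N + 1 : ℕ) : ℝ) ^ (1 + η) * ((N + 1 : ℕ) : ℝ) ^ 2)) (by positivity)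
  refine ⟨(N + 1) * q, by nlinarith, by positivity, ?_⟩
  have h1 := dist_scale ((q : ℝ) * α) (N + 1)
  have h2 := dist_scale ((q : ℝ) * β) (N + 1)
  rw [lt_div_iff₀ (by positivity)] at hlt
  have e1 : (((N + 1) * q : ℕ) : ℝ) * α = ((N + 1 : ℕ) : ℝ) * ((q : ℝ) * α) := by push_cast; ring
  have e2 : (((N + 1) * q : ℕ) : ℝ) * β = ((N + 1 : ℕ) : ℝ) * ((q : ℝ) * β) := by push_cast; ring
  have e3 : (((N + 1) * q : ℕ) : ℝ) ^ (1 + η) = ((N + 1 : ℕ) : ℝ) ^ (1 + η) * (q : ℝ) ^ (1 + η) := by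
    rw [Nat.cast_mul, Real.mul_rpow hN.le (Nat.cast_nonneg _)]
  rw [e1, e2, e3]
  refine lt_of_le_of_lt ?_ hlt
  have hq0 : (0 : ℝ) ≤ (q : ℝ) ^ (1 + η) := Real.rpow_nonneg (Nat.cast_nonneg _) _
  calc ((N + 1 : ℕ) : ℝ) ^ (1 + η) * (q : ℝ) ^ (1 + η) * |((N + 1 : ℕ) : ℝ) * ((q : ℝ) * α)
          - round (((N + 1 : ℕ) : ℝ) * ((q : ℝ) * α))|
        * |((N + 1 : ℕ) : ℝ) * ((q : ℝ) * β) - round (((N + 1 : ℕ) : ℝ) * ((q : ℝ) * β))|
      ≤ ((N + 1 : ℕ) : ℝ) ^ (1 + η) * (q : ℝ) ^ (1 + η)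
          * (((N + 1 : ℕ) : ℝ) * |(q : ℝ) * α - round ((q : ℝ) * α)|)
        * (((N + 1 : ℕ) : ℝ) * |(q : ℝ) * β - round ((q : ℝ) * β)|) := by
        gcongr
    _ = _ := by ring

theorem lc_final (hb : Unt t N ε) (A : ℝ) (hA : 0 ≤ A) (d : ℕ → ℤ) (B : ℝ)
    (hB : ∀ k, |(d k : ℝ)| ≤ B) (h : ∀ K, Rel t N ε 0 A d K) (a b x y z w : ℚ) :
    LC (a + b * ε) ((x + y * ε) * tl ε d 0 + (z + w * ε)) := by
  obtain ⟨D, C, hD, hC, hmain⟩ := raw2 hb 0 A le_rfl hA d B hB h a b x y z w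
  refine lc_of_inf fun δ hδ => ?_
  obtain ⟨K, hK⟩ : ∃ K : ℕ, C * (1 / 2) ^ K < δ := by
    have ht : Filter.Tendsto (fun K : ℕ => C * (1 / 2 : ℝ) ^ K) Filter.atTop (nhds (C * 0)) :=
      (tendsto_pow_atTop_nhds_zero_of_lt_one (by norm_num) (by norm_num)).const_mul _
    rw [mul_zero] at ht
    exact (ht.eventually (gt_mem_nhds hδ)).exists
  obtain ⟨q, s, r, hq, -, -, h1⟩ := hmain K
  refine ⟨q, hq, lt_of_le_of_lt (h1.trans ?_) hK⟩
  have h2 : ε⁻¹ ^ r ≤ 1 := pow_le_one₀ hb.rpos.le hb.rlt.le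
  have h3 : 0 ≤ C * (1 / 2) ^ K := by positivity
  nlinarith

theorem ps_final (hb : Unt t N ε) (κ A : ℝ) (hκ : 0 < κ) (hA : 0 ≤ A) (d : ℕ → ℤ) (B : ℝ)
    (hB : ∀ k, |(d k : ℝ)| ≤ B) (h : ∀ K, Rel t N ε κ A d K) (a b x y z w : ℚ) :
    PS (a + b * ε) ((x + y * ε) * tl ε d 0 + (z + w * ε)) := by
  obtain ⟨D, C, hD, hC, hmain⟩ := raw2 hb κ A hκ.le hA d B hB h a b x y z w
  have hε := hb.pos
  refine ps_of_inf (η := κ / 2) (by linarith) fun δ hδ => ?_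
  set C2 : ℝ := D ^ (κ / 2) * C with hC2
  have hC20 : 0 ≤ C2 := by
    have := Real.rpow_nonneg hD.le (κ / 2)
    positivity
  obtain ⟨K, hK⟩ : ∃ K : ℕ, C2 * (1 / 2) ^ K < δ := by
    have ht : Filter.Tendsto (fun K : ℕ => C2 * (1 / 2 : ℝ) ^ K) Filter.atTop (nhds (C2 * 0)) :=
      (tendsto_pow_atTop_nhds_zero_of_lt_one (by norm_num) (by norm_num)).const_mul _
    rw [mul_zero] at ht
    exact (ht.eventually (gt_mem_nhds hδ)).exists
  obtain ⟨q, s, r, hq, hqb, hsr, h1⟩ := hmain K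
  refine ⟨q, hq, lt_of_le_of_lt ?_ hK⟩
  have hqr : (0 : ℝ) < q := by exact_mod_cast hq
  have e1 : (q : ℝ) ^ (1 + κ / 2) = (q : ℝ) ^ (κ / 2) * q := by
    rw [Real.rpow_add hqr, Real.rpow_one, mul_comm]
  have e2 : (q : ℝ) ^ (κ / 2) ≤ D ^ (κ / 2) * ε ^ r := by
    calc (q : ℝ) ^ (κ / 2) ≤ (D * ε ^ (2 * s)) ^ (κ / 2) :=
          Real.rpow_le_rpow hqr.le hqb (by linarith)
      _ = D ^ (κ / 2) * (ε ^ (2 * s)) ^ (κ / 2) :=
          Real.mul_rpow hD.le (pow_pos hε _).le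
      _ = D ^ (κ / 2) * ε ^ (κ * s) := by
          rw [← Real.rpow_natCast ε (2 * s), ← Real.rpow_mul hε.le]
          congr 2
          push_cast
          ring
      _ ≤ D ^ (κ / 2) * ε ^ (r : ℝ) := by
          have := Real.rpow_nonneg hD.le (κ / 2)
          exact mul_le_mul_of_nonneg_left (Real.rpow_le_rpow_of_exponent_le hb.h1.le hsr) this
      _ = _ := by rw [Real.rpow_natCast]
  have e3 : ε ^ r * ε⁻¹ ^ r = 1 := by rw [← mul_pow, hb.rmul, one_pow]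
  have hN2 := Real.rpow_nonneg hD.le (κ / 2)
  rw [e1]
  set d1 := |(q : ℝ) * (a + b * ε) - round ((q : ℝ) * (a + b * ε))| with hd1
  set d2 := |(q : ℝ) * ((x + y * ε) * tl ε d 0 + (z + w * ε))
          - round ((q : ℝ) * ((x + y * ε) * tl ε d 0 + (z + w * ε)))| with hd2
  calc (q : ℝ) ^ (κ / 2) * q * d1 * d2 = (q : ℝ) ^ (κ / 2) * (q * d1 * d2) := by ring
    _ ≤ (D ^ (κ / 2) * ε ^ r) * (C * (1 / 2) ^ K * ε⁻¹ ^ r) := by
        have : 0 ≤ (q : ℝ) * d1 * d2 := by positivity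
        gcongr
    _ = D ^ (κ / 2) * C * (1 / 2) ^ K * (ε ^ r * ε⁻¹ ^ r) := by ring
    _ = C2 * (1 / 2) ^ K := by rw [e3, mul_one]

end Pool.Agent.Helper553.DS
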